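import Pool.Agent.X238.Ami.Model

/-!
# `F` embeds in the countable power but not in the semigroup
-/

namespace Pool.Agent.X238.Ami

universe u

open FreeSemigroup

/-- the alternating word with `m + 1` letters and first letter `p` -/
def alt : ℕ → Bool → FreeSemigroup Bool
  | 0, p => of p
  | m + 1, p => of p * alt m (!p)

theorem rel_sq (c : Bool) : conGen relF (of c * of c) (of c) :=
  ConGen.Rel.of _ _ ⟨c, rfl, rfl⟩

theorem exists_alt (x : FreeSemigroup Bool) : ∃ m p, conGen relF x (alt m p) := by
  induction x using FreeSemigroup.recOnMul with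
  | ih1 c => exact ⟨0, c, (conGen relF).refl _⟩
  | ih2 c y _ ih =>
    obtain ⟨m, p, h⟩ := ih
    have h1 : conGen relF (of c * y) (of c * alt m p) := (conGen relF).mul ((conGen relF).refl _) h
    by_cases hp : p = !c
    · subst hp
      exact ⟨m + 1, c, h1⟩
    · have hp : p = c := by
        cases p <;> cases c <;> simp_all
      subst hp
      cases m with
      | zero => exact ⟨0, p, (conGen relF).trans h1 (rel_sq p)⟩
      | succ m =>
        refine ⟨m + 1, p, (conGen relF).trans h1 ?_⟩
        show conGen relF (of p * (of p * alt m (!p))) (of p * alt m (!p))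
        rw [← mul_assoc]
        exact (conGen relF).mul (rel_sq p) ((conGen relF).refl _)

/-- the value of the alternating word with first letter `c` and `d + 1` letters -/
def xe (c : Bool) (d n : ℕ) : Elt.{u} where
  f := fun k => if k % 2 = c.toNat ∧ d ≤ k ∧ k ≤ 2 * n then some (k - d) else none
  fin := ⟨2 * n + 1, fun k hk => if_neg (by omega)⟩
  dec := by
    intro k e he
    split_ifs at he with h1
    cases he
    omega
  dom := by
    intro k e he
    split_ifs at he with h1
    exact if_neg (by omega)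
  inj := by
    intro k k' e he he'
    split_ifs at he he' with h1 h2
    have h3 := Option.some.inj he
    have h4 := Option.some.inj he'
    omega
  img := by
    intro k k' e he he'
    split_ifs at he he' with h1 h2
    have h3 := Option.some.inj he
    have h4 := Option.some.inj he'
    omega

theorem xe_f {c : Bool} {d n k e : ℕ} :
    (xe.{u} c d n).f k = some e ↔ (k % 2 = c.toNat ∧ d ≤ k ∧ k ≤ 2 * n) ∧ k - d = e := by
  unfold xe
  simp only
  split_ifs with h
  · constructor
    · intro h1; exact ⟨h, Option.some.inj h1⟩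
    · rintro ⟨_, h1⟩; rw [h1]
  · constructor
    · intro h1; cases h1
    · rintro ⟨h1, _⟩; exact absurd h1 h

theorem toNat_not (c : Bool) : (!c).toNat + c.toNat = 1 := by cases c <;> rfl

theorem xe_mul (c : Bool) (d n : ℕ) : (xe.{u} c 0 n) * xe (!c) d n = xe c (d + 1) n := by
  have hc := toNat_not c
  apply Elt.ext
  funext k
  apply Elt.opt_eq
  intro e
  rw [Elt.mul_f, Option.bind_eq_some_iff, xe_f]
  constructor
  · rintro ⟨k', h1, h2⟩
    obtain ⟨⟨a1, a2, a3⟩, a4⟩ := xe_f.1 h1
    rcases Elt.th_some.1 h2 with h3 | ⟨k'', rfl, h3⟩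
    · obtain ⟨⟨b1, b2, b3⟩, b4⟩ := xe_f.1 h3
      omega
    · obtain ⟨⟨b1, b2, b3⟩, b4⟩ := xe_f.1 h3
      omega
  · rintro ⟨⟨a1, a2, a3⟩, a4⟩
    refine ⟨k, xe_f.2 ⟨⟨a1, by omega, a3⟩, by omega⟩, ?_⟩
    refine Elt.th_some.2 (Or.inr ⟨k - 1, by omega, xe_f.2 ⟨⟨by omega, by omega, by omega⟩,
      by omega⟩⟩)

theorem xe_sq (c : Bool) (n : ℕ) : (xe.{u} c 0 n) * xe c 0 n = xe c 0 n := by
  apply Elt.idem_of
  intro k e h
  obtain ⟨_, h2⟩ := xe_f.1 h
  omega

noncomputable instance : Semigroup Elt.{u} :=
  { (inferInstance : Mul Elt.{u}) with mul_assoc := Elt.assoc }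

/-- the homomorphism from the free semigroup -/
noncomputable def psi : FreeSemigroup Bool →ₙ* (ℕ → Elt.{u}) :=
  FreeSemigroup.lift fun c n => xe c 0 n

theorem psi_alt (m : ℕ) (c : Bool) : psi.{u} (alt m c) = fun n => xe c m n := by
  induction m generalizing c with
  | zero => rfl
  | succ m ih =>
    show psi (of c * alt m (!c)) = _
    rw [map_mul, ih]
    funext n
    exact xe_mul c m n

theorem le_ker : conGen relF ≤ Con.ker psi.{u} := by
  rw [Con.conGen_le]
  rintro x y ⟨c, rfl, rfl⟩
  show psi _ = psi _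
  rw [map_mul]
  funext n
  exact xe_sq c n

/-- the homomorphism from `F` -/
noncomputable def phi : F →ₙ* (ℕ → Elt.{u}) where
  toFun q := Con.liftOn q psi.{u} fun _ _ h => le_ker h
  map_mul' p q := by
    induction p, q using Con.induction_on₂ with
    | _ x y => exact map_mul psi x y

theorem xe_inj {m m' : ℕ} {p p' : Bool}
    (h : (fun n => xe.{u} p m n) = fun n => xe p' m' n) : m = m' ∧ p = p' := by
  have h1 : xe.{u} p m (m + m' + 1) = xe p' m' (m + m' + 1) := congrFun h (m + m' + 1)
  have hp := toNat_not p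
  have hp' := toNat_not p'
  have h2 : (xe.{u} p m (m + m' + 1)).f (2 * (m + m') + p.toNat) =
      some (2 * (m + m') + p.toNat - m) :=
    xe_f.2 ⟨⟨by omega, by omega, by omega⟩, rfl⟩
  rw [h1] at h2
  obtain ⟨⟨a1, a2, a3⟩, a4⟩ := xe_f.1 h2
  refine ⟨by omega, ?_⟩
  have h3 : p.toNat = p'.toNat := by omega
  cases p <;> cases p' <;> simp_all

theorem phi_inj : Function.Injective phi.{u} := by
  intro x y h
  induction x, y using Con.induction_on₂ with
  | _ x y =>
    obtain ⟨m, p, h1⟩ := exists_alt x
    obtain ⟨m', p', h2⟩ := exists_alt y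
    have h3 : psi.{u} x = psi.{u} y := h
    have h4 : psi.{u} x = psi.{u} (alt m p) := le_ker h1
    have h5 : psi.{u} y = psi.{u} (alt m' p') := le_ker h2
    rw [h4, h5, psi_alt, psi_alt] at h3
    obtain ⟨rfl, rfl⟩ := xe_inj h3
    exact (Con.eq _).2 ((conGen relF).trans h1 ((conGen relF).symm h2))

theorem alt_inj {m m' : ℕ} {p p' : Bool} (h : ((alt m p : FreeSemigroup Bool) : F) = (alt m' p' :
    FreeSemigroup Bool)) : m = m' ∧ p = p' := by
  have h1 : psi.{0} (alt m p) = psi.{0} (alt m' p') := le_ker ((Con.eq _).1 h)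
  rw [psi_alt, psi_alt] at h1
  exact xe_inj h1

theorem avoids : Avoids Elt.{u} F := by
  intro U
  refine ⟨fun e => ?_⟩
  set a : Elt.{u} := (e.symm ((of false : FreeSemigroup Bool) : F)).1 with ha
  set g : ℕ → Elt.{u} := fun m => (e.symm ((alt (m + 1) false : FreeSemigroup Bool) : F)).1 with hg
  have hga : ∀ m, g m = a * (e.symm ((alt m true : FreeSemigroup Bool) : F)).1 := by
    intro m
    have h1 : ((alt (m + 1) false : FreeSemigroup Bool) : F) =
        ((of false : FreeSemigroup Bool) : F) * ((alt m true : FreeSemigroup Bool) : F) := rfl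
    show (e.symm _).1 = _
    rw [h1, map_mul]
    rfl
  obtain ⟨N, hN⟩ := a.fin
  have hgN : ∀ m k, N ≤ k → (g m).f k = none := by
    intro m k hk
    rw [hga m, Elt.mul_f, hN k hk]
    rfl
  have hginj : Function.Injective g := by
    intro m m' h
    have h1 := e.symm.injective (Subtype.ext h)
    have := (alt_inj h1).1
    omega
  let G : ℕ → (Fin N → Fin (N + 1)) := fun m i =>
    ⟨min (((g m).f i).getD N) N, by omega⟩
  refine not_injective_infinite_finite G ?_
  intro m m' h
  apply hginj
  apply Elt.ext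
  funext k
  by_cases hk : k < N
  · have h1 := congrArg Fin.val (congrFun h ⟨k, hk⟩)
    simp only [G] at h1
    cases h2 : (g m).f k with
    | none =>
      cases h3 : (g m').f k with
      | none => rfl
      | some c' =>
        have := (g m').dec _ _ h3
        rw [h2, h3] at h1
        simp at h1
        omega
    | some c =>
      have := (g m).dec _ _ h2
      cases h3 : (g m').f k with
      | none =>
        rw [h2, h3] at h1
        simp at h1
        omega
      | some c' =>
        have := (g m').dec _ _ h3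
        rw [h2, h3] at h1
        simp at h1
        congr 1
        omega
  · rw [hgN m k (by omega), hgN m' k (by omega)]

theorem inK : InK Elt.{u} :=
  ⟨Elt.amiable, fun x => ⟨Elt.idem_of fun _ _ h => (Elt.lop_f.1 h).1, Elt.lstar_lop x⟩,
    fun x => ⟨Elt.idem_of fun _ _ h => (Elt.rop_f.1 h).1, Elt.rstar_rop x⟩, avoids⟩

theorem not_avoids_pow : ¬ Avoids (ℕ → Elt.{u}) F := by
  intro h
  refine (h (MulHom.srange phi.{u})).false ?_
  refine (MulEquiv.ofBijective phi.{u}.srangeRestrict ⟨?_, ?_⟩).symm
  · intro x y hxy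
    exact phi_inj (congrArg Subtype.val hxy)
  · rintro ⟨y, x, rfl⟩
    exact ⟨x, rfl⟩

end Pool.Agent.X238.Ami
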