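import Mathlib

/-!
# Amiable semigroups and quasi-identities: definitions
-/

namespace Pool.Agent.X238.Ami

universe u v

/-- Algebras of type `⟨2,1,1⟩`: a binary operation and the two unary operations `x ↦ x_ℓ`,
`x ↦ x_r`. -/
class BiUn (S : Type u) extends Mul S where
  /-- the operation `x ↦ x_ℓ` -/
  l : S → S
  /-- the operation `x ↦ x_r` -/
  r : S → S

export BiUn (l r)

section star

variable {S : Type u} [Mul S]

/-- `x a` for `a ∈ S¹`; here `Option S` is `S` with an identity adjoined (if `S` already has an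
identity `1`, the new element acts on `S` in the same way as `1`, so it may be adjoined anyway). -/
def rm (x : S) : Option S → S
  | none => x
  | some a => x * a

/-- `a x` for `a ∈ S¹`. -/
def lm (x : S) : Option S → S
  | none => x
  | some a => a * x

/-- The relation `𝓛*`: `x a = x b ↔ y a = y b` for all `a, b ∈ S¹`. -/
def LStar (x y : S) : Prop := ∀ a b : Option S, rm x a = rm x b ↔ rm y a = rm y b

/-- The relation `𝓡*`: `a x = b x ↔ a y = b y` for all `a, b ∈ S¹`. -/
def RStar (x y : S) : Prop := ∀ a b : Option S, lm x a = lm x b ↔ lm y a = lm y b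

/-- Amiable semigroups: every `𝓛*`-class and every `𝓡*`-class contains exactly one idempotent. -/
def Amiable (S : Type u) [Mul S] : Prop :=
  (∀ x y z : S, x * y * z = x * (y * z)) ∧
  (∀ x : S, ∃! e : S, e * e = e ∧ LStar x e) ∧
  (∀ x : S, ∃! e : S, e * e = e ∧ RStar x e)

end star

/-- the relations `a² = a`, `b² = b` on the free semigroup on two letters -/
def relF (x y : FreeSemigroup Bool) : Prop :=
  ∃ c : Bool, x = FreeSemigroup.of c * FreeSemigroup.of c ∧ y = FreeSemigroup.of c

/-- The semigroup `F = ⟨a, b | a² = a, b² = b⟩`. -/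
abbrev F : Type := (conGen relF).Quotient

/-- `S` avoids `T`: no subsemigroup of `S` is isomorphic to `T`. -/
def Avoids (S : Type u) (T : Type v) [Mul S] [Mul T] : Prop :=
  ∀ U : Subsemigroup S, IsEmpty (U ≃* T)

/-- The class `𝒦`: amiable semigroups with their two unary operations, avoiding `F`. -/
def InK (S : Type u) [BiUn S] : Prop :=
  Amiable S ∧ (∀ x : S, l x * l x = l x ∧ LStar x (l x)) ∧
  (∀ x : S, r x * r x = r x ∧ RStar x (r x)) ∧ Avoids S F

/-- Terms in the signature `⟨2,1,1⟩`. -/
inductive Tm : Type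
  | var (n : ℕ) : Tm
  | mul (s t : Tm) : Tm
  | l (t : Tm) : Tm
  | r (t : Tm) : Tm

/-- The value of a term. -/
def Tm.eval {S : Type u} [BiUn S] (w : ℕ → S) : Tm → S
  | .var n => w n
  | .mul s t => s.eval w * t.eval w
  | .l t => BiUn.l (t.eval w)
  | .r t => BiUn.r (t.eval w)

/-- Quasi-identities `(s₁ = t₁ ∧ … ∧ s_k = t_k) ⇒ s = t`. -/
structure QId : Type where
  /-- the premises -/
  prem : List (Tm × Tm)
  /-- the conclusion -/
  concl : Tm × Tm

/-- An algebra satisfies a quasi-identity. -/
def Sat (S : Type u) [BiUn S] (q : QId) : Prop :=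
  ∀ w : ℕ → S, (∀ p ∈ q.prem, p.1.eval w = p.2.eval w) → q.concl.1.eval w = q.concl.2.eval w

/-- direct powers -/
instance powBiUn (ι : Type v) (S : Type u) [BiUn S] : BiUn (ι → S) :=
  { (inferInstance : Mul (ι → S)) with
    l := fun f i => l (f i)
    r := fun f i => r (f i) }

theorem eval_pow {ι : Type v} {S : Type u} [BiUn S] (w : ℕ → ι → S) (t : Tm) (i : ι) :
    t.eval w i = t.eval fun n => w n i := by
  induction t with
  | var n => rfl
  | mul s t ihs iht =>
    show s.eval w i * t.eval w i = _
    rw [ihs, iht]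
    rfl
  | l t ih =>
    show BiUn.l (t.eval w i) = _
    rw [ih]
    rfl
  | r t ih =>
    show BiUn.r (t.eval w i) = _
    rw [ih]
    rfl

/-- Quasi-identities are preserved by direct powers. -/
theorem Sat.pow {S : Type u} [BiUn S] {q : QId} (h : Sat S q) (ι : Type v) : Sat (ι → S) q := by
  intro w hw
  funext i
  rw [eval_pow, eval_pow]
  apply h
  intro p hp
  have := congrFun (hw p hp) i
  rwa [eval_pow, eval_pow] at this

end Pool.Agent.X238.Ami
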