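import Pool.Agent.X238.Ami.Defs

/-!
# A member of the class whose countable power contains `F`

Elements: finite partial injective decreasing maps `f` on `ℕ` whose domain and image contain no two
consecutive numbers. Such an `f` stands for the partial map `th f` which is defined on the pairs
`{k, k+1}` with `k` in the domain of `f` and constant with value `f k` on them; the product is
composition of these partial maps (written on the right).
-/

namespace Pool.Agent.X238.Ami

universe u

/-- the partial map on `ℕ` given by `g` -/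
def th (g : ℕ → Option ℕ) : ℕ → Option ℕ
  | 0 => g 0
  | c + 1 => match g (c + 1) with
    | some d => some d
    | none => g c

/-- The elements of the semigroup. -/
@[ext]
structure Elt : Type u where
  f : ℕ → Option ℕ
  fin : ∃ N, ∀ k, N ≤ k → f k = none
  dec : ∀ k c, f k = some c → c ≤ k
  dom : ∀ k c, f k = some c → f (k + 1) = none
  inj : ∀ k k' c, f k = some c → f k' = some c → k = k'
  img : ∀ k k' c, f k = some c → f k' ≠ some (c + 1)

namespace Elt

theorem th_some {y : Elt.{u}} {c d : ℕ} :
    th y.f c = some d ↔ y.f c = some d ∨ ∃ c', c = c' + 1 ∧ y.f c' = some d := by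
  cases c with
  | zero =>
    simp only [th]
    constructor
    · exact Or.inl
    · rintro (h | ⟨c', h, _⟩)
      · exact h
      · omega
  | succ c =>
    simp only [th]
    constructor
    · intro h
      cases h1 : y.f (c + 1) with
      | some e =>
        rw [h1] at h
        exact Or.inl h
      | none =>
        rw [h1] at h
        exact Or.inr ⟨c, rfl, h⟩
    · rintro (h | ⟨c', h, h'⟩)
      · rw [h]
      · obtain rfl : c = c' := by omega
        rw [y.dom _ _ h']
        exact h'

theorem th_of {y : Elt.{u}} {c d : ℕ} (h : y.f c = some d) : th y.f c = some d :=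
  th_some.2 (Or.inl h)

theorem th_of' {y : Elt.{u}} {c d : ℕ} (h : y.f c = some d) : th y.f (c + 1) = some d :=
  th_some.2 (Or.inr ⟨c, rfl, h⟩)

theorem th_none {y : Elt.{u}} {c : ℕ} (h : y.f c = none) (h' : ∀ c', c = c' + 1 → y.f c' = none) :
    th y.f c = none := by
  cases h1 : th y.f c with
  | none => rfl
  | some d =>
    rcases th_some.1 h1 with h2 | ⟨c', h2, h3⟩
    · rw [h] at h2; cases h2
    · rw [h' c' h2] at h3; cases h3

/-- multiplication -/
def mul (x y : Elt.{u}) : Elt.{u} where
  f := fun k => (x.f k).bind (th y.f)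
  fin := by
    obtain ⟨N, hN⟩ := x.fin
    exact ⟨N, fun k hk => by rw [hN k hk]; rfl⟩
  dec := by
    intro k d h
    obtain ⟨c, hc, hd⟩ := Option.bind_eq_some_iff.1 h
    have h1 := x.dec k c hc
    rcases th_some.1 hd with h2 | ⟨c', h2, h3⟩
    · have := y.dec c d h2
      omega
    · have := y.dec c' d h3
      omega
  dom := by
    intro k d h
    obtain ⟨c, hc, hd⟩ := Option.bind_eq_some_iff.1 h
    rw [x.dom k c hc]
    rfl
  inj := by
    intro k k' d h h'
    obtain ⟨c, hc, hd⟩ := Option.bind_eq_some_iff.1 h
    obtain ⟨c', hc', hd'⟩ := Option.bind_eq_some_iff.1 h'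
    rcases th_some.1 hd with h2 | ⟨e, h2, h3⟩ <;> rcases th_some.1 hd' with h4 | ⟨e', h4, h5⟩
    · obtain rfl := y.inj _ _ _ h2 h4
      exact x.inj _ _ _ hc hc'
    · obtain rfl := y.inj _ _ _ h2 h5
      rw [h4] at hc'
      exact absurd hc' (x.img _ _ _ hc)
    · obtain rfl := y.inj _ _ _ h3 h4
      rw [h2] at hc
      exact absurd hc (x.img _ _ _ hc')
    · obtain rfl := y.inj _ _ _ h3 h5
      rw [h2] at hc
      rw [h4] at hc'
      exact x.inj _ _ _ hc hc'
  img := by
    intro k k' d h h'
    obtain ⟨c, hc, hd⟩ := Option.bind_eq_some_iff.1 h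
    obtain ⟨c', hc', hd'⟩ := Option.bind_eq_some_iff.1 h'
    rcases th_some.1 hd with h2 | ⟨e, h2, h3⟩ <;> rcases th_some.1 hd' with h4 | ⟨e', h4, h5⟩
    · exact y.img _ _ _ h2 h4
    · exact y.img _ _ _ h2 h5
    · exact y.img _ _ _ h3 h4
    · exact y.img _ _ _ h3 h5

open Classical in
/-- the idempotent with the same image -/
noncomputable def lop (x : Elt.{u}) : Elt.{u} where
  f := fun k => if ∃ j, x.f j = some k then some k else none
  fin := by
    obtain ⟨N, hN⟩ := x.fin
    refine ⟨N, fun k hk => if_neg ?_⟩
    rintro ⟨j, hj⟩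
    have h1 := x.dec j k hj
    rw [hN j (by omega)] at hj
    cases hj
  dec := by
    intro k c h
    split_ifs at h with h1
    cases h
    exact le_rfl
  dom := by
    intro k c h
    split_ifs at h with h1
    obtain ⟨j, hj⟩ := h1
    refine if_neg ?_
    rintro ⟨j', hj'⟩
    exact x.img _ _ _ hj hj'
  inj := by
    intro k k' c h h'
    split_ifs at h h'
    cases h
    cases h'
    rfl
  img := by
    intro k k' c h h'
    split_ifs at h h' with h1 h2
    cases h
    cases h'
    obtain ⟨j, hj⟩ := h1
    obtain ⟨j', hj'⟩ := h2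
    exact x.img _ _ _ hj hj'

/-- the idempotent with the same kernel -/
def rop (x : Elt.{u}) : Elt.{u} where
  f := fun k => (x.f k).map fun _ => k
  fin := by
    obtain ⟨N, hN⟩ := x.fin
    exact ⟨N, fun k hk => by rw [hN k hk]; rfl⟩
  dec := by
    intro k c h
    obtain ⟨d, _, rfl⟩ := Option.map_eq_some_iff.1 h
    exact le_rfl
  dom := by
    intro k c h
    obtain ⟨d, hd, rfl⟩ := Option.map_eq_some_iff.1 h
    rw [x.dom _ _ hd]
    rfl
  inj := by
    intro k k' c h h'
    obtain ⟨d, _, rfl⟩ := Option.map_eq_some_iff.1 h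
    obtain ⟨d', _, h2⟩ := Option.map_eq_some_iff.1 h'
    exact h2.symm
  img := by
    intro k k' c h h'
    obtain ⟨d, hd, rfl⟩ := Option.map_eq_some_iff.1 h
    obtain ⟨d', hd', h2⟩ := Option.map_eq_some_iff.1 h'
    rw [h2] at hd'
    rw [x.dom _ _ hd] at hd'
    cases hd'

noncomputable instance : BiUn Elt.{u} where
  mul := mul
  l := lop
  r := rop

theorem mul_f (x y : Elt.{u}) (k : ℕ) : (x * y).f k = (x.f k).bind (th y.f) := rfl

theorem th_mul (y z : Elt.{u}) (c : ℕ) : th (y * z).f c = (th y.f c).bind (th z.f) := by
  cases c with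
  | zero => rfl
  | succ c =>
    cases h1 : y.f (c + 1) with
    | some v =>
      rw [th_of h1]
      have h2 : y.f c = none := by
        cases h3 : y.f c with
        | none => rfl
        | some w =>
          have := y.dom _ _ h3
          rw [this] at h1
          cases h1
      have h3 : (y * z).f (c + 1) = th z.f v := by rw [mul_f, h1]; rfl
      have h4 : (y * z).f c = none := by rw [mul_f, h2]; rfl
      have h6 : th (y * z).f (c + 1) = (match (y * z).f (c + 1) with
        | some d => some d
        | none => (y * z).f c) := rfl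
      rw [h6, h3, h4]
      show _ = th z.f v
      cases th z.f v <;> rfl
    | none =>
      have h3 : (y * z).f (c + 1) = none := by rw [mul_f, h1]; rfl
      have h4 : th y.f (c + 1) = y.f c := by simp only [th, h1]
      rw [h4, ← mul_f]
      simp only [th, h3]

theorem assoc (x y z : Elt.{u}) : x * y * z = x * (y * z) := by
  apply Elt.ext
  funext k
  rw [mul_f, mul_f, mul_f]
  cases h : x.f k with
  | none => rfl
  | some c =>
    show (th y.f c).bind (th z.f) = th (y * z).f c
    rw [th_mul]

/-- the partial map of an element of `S¹` -/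
def thO : Option Elt.{u} → ℕ → Option ℕ
  | none => some
  | some a => th a.f

theorem rm_f (x : Elt.{u}) (a : Option Elt.{u}) (k : ℕ) :
    (rm x a).f k = (x.f k).bind (thO a) := by
  cases a with
  | none =>
    show x.f k = _
    cases x.f k <;> rfl
  | some a => rfl

theorem rm_eq_iff (x : Elt.{u}) (a b : Option Elt.{u}) :
    rm x a = rm x b ↔ ∀ k c, x.f k = some c → thO a c = thO b c := by
  constructor
  · intro h k c hc
    have h1 := congrArg (fun z : Elt.{u} => z.f k) h
    simp only [rm_f, hc] at h1
    exact h1
  · intro h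
    apply Elt.ext
    funext k
    rw [rm_f, rm_f]
    cases hc : x.f k with
    | none => rfl
    | some c => exact h k c hc

theorem th_inj {y z : Elt.{u}} (h : ∀ c, th y.f c = th z.f c) : y = z := by
  have key : ∀ (y z : Elt.{u}), (∀ c, th y.f c = th z.f c) → ∀ k c, y.f k = some c →
      z.f k = some c := by
    intro y z h k c hc
    have h1 : th z.f k = some c := by rw [← h k]; exact th_of hc
    rcases th_some.1 h1 with h2 | ⟨k', rfl, h2⟩
    · exact h2
    · exfalso
      have h3 : th y.f k' = some c := by rw [h k']; exact th_of h2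
      rcases th_some.1 h3 with h4 | ⟨k'', rfl, h4⟩
      · have := y.inj _ _ _ hc h4
        omega
      · have := y.inj _ _ _ hc h4
        omega
  apply Elt.ext
  funext k
  cases hy : y.f k with
  | some c => exact (key y z h k c hy).symm
  | none =>
    cases hz : z.f k with
    | none => rfl
    | some c =>
      have := key z y (fun c => (h c).symm) k c hz
      rw [hy] at this
      exact this

theorem th_lm (x : Elt.{u}) (a : Option Elt.{u}) (c : ℕ) :
    th (lm x a).f c = (thO a c).bind (th x.f) := by
  cases a with
  | none => rfl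
  | some a => exact th_mul a x c

theorem lm_eq_iff (x : Elt.{u}) (a b : Option Elt.{u}) :
    lm x a = lm x b ↔ ∀ c, (thO a c).bind (th x.f) = (thO b c).bind (th x.f) := by
  constructor
  · intro h c
    rw [← th_lm, ← th_lm, h]
  · intro h
    apply th_inj
    intro c
    rw [th_lm, th_lm]
    exact h c

theorem lop_f {x : Elt.{u}} {k c : ℕ} : (lop x).f k = some c ↔ c = k ∧ ∃ j, x.f j = some k := by
  classical
  unfold lop
  simp only
  split_ifs with h
  · constructor
    · intro h1
      cases h1
      exact ⟨rfl, h⟩
    · rintro ⟨rfl, _⟩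
      rfl
  · constructor
    · intro h1; cases h1
    · rintro ⟨_, h1⟩
      exact absurd h1 h

theorem rop_f {x : Elt.{u}} {k c : ℕ} : (rop x).f k = some c ↔ c = k ∧ ∃ d, x.f k = some d := by
  unfold rop
  simp only [Option.map_eq_some_iff]
  constructor
  · rintro ⟨d, hd, rfl⟩
    exact ⟨rfl, d, hd⟩
  · rintro ⟨rfl, d, hd⟩
    exact ⟨d, hd, rfl⟩

theorem idem_of {e : Elt.{u}} (h : ∀ k c, e.f k = some c → c = k) : e * e = e := by
  apply Elt.ext
  funext k
  rw [mul_f]
  cases hk : e.f k with
  | none => rfl
  | some c =>
    obtain rfl := h k c hk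
    show th e.f c = some c
    exact th_of hk

theorem of_idem {e : Elt.{u}} (h : e * e = e) {k c : ℕ} (hk : e.f k = some c) : c = k := by
  have h1 : (e * e).f k = some c := by rw [h]; exact hk
  rw [mul_f, hk] at h1
  have h2 : th e.f c = some c := h1
  rcases th_some.1 h2 with h3 | ⟨c', rfl, h3⟩
  · exact e.inj _ _ _ h3 hk
  · have := e.dec _ _ h3
    omega

theorem lstar_lop (x : Elt.{u}) : LStar x (lop x) := by
  intro a b
  rw [rm_eq_iff, rm_eq_iff]
  constructor
  · intro h k c hk
    obtain ⟨rfl, j, hj⟩ := lop_f.1 hk
    exact h j c hj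
  · intro h k c hk
    exact h c c (lop_f.2 ⟨rfl, k, hk⟩)

theorem th_rop {x : Elt.{u}} {c d : ℕ} :
    th (rop x).f c = some d ↔ (c = d ∨ c = d + 1) ∧ ∃ e, x.f d = some e := by
  rw [th_some]
  constructor
  · rintro (h | ⟨c', rfl, h⟩)
    · obtain ⟨rfl, e, he⟩ := rop_f.1 h
      exact ⟨Or.inl rfl, e, he⟩
    · obtain ⟨rfl, e, he⟩ := rop_f.1 h
      exact ⟨Or.inr rfl, e, he⟩
  · rintro ⟨rfl | rfl, e, he⟩
    · exact Or.inl (rop_f.2 ⟨rfl, e, he⟩)
    · exact Or.inr ⟨d, rfl, rop_f.2 ⟨rfl, e, he⟩⟩

theorem th_eq_rop (x : Elt.{u}) (c : ℕ) : th x.f c = (th (rop x).f c).bind x.f := by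
  cases h : th x.f c with
  | some d =>
    rcases th_some.1 h with h1 | ⟨c', rfl, h1⟩
    · have : th (rop x).f c = some c := th_rop.2 ⟨Or.inl rfl, d, h1⟩
      rw [this]
      exact h1.symm
    · have : th (rop x).f (c' + 1) = some c' := th_rop.2 ⟨Or.inr rfl, d, h1⟩
      rw [this]
      exact h1.symm
  | none =>
    cases h2 : th (rop x).f c with
    | none => rfl
    | some d =>
      obtain ⟨h3, e, he⟩ := th_rop.1 h2
      rcases h3 with rfl | rfl
      · rw [th_of he] at h
        cases h
      · rw [th_of' he] at h
        cases h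

theorem bind_rop_iff (x : Elt.{u}) (p q : Option ℕ) :
    p.bind (th x.f) = q.bind (th x.f) ↔ p.bind (th (rop x).f) = q.bind (th (rop x).f) := by
  have e : ∀ p : Option ℕ, p.bind (th x.f) = (p.bind (th (rop x).f)).bind x.f := by
    intro p
    cases p with
    | none => rfl
    | some c => exact th_eq_rop x c
  constructor
  · intro h
    rw [e p, e q] at h
    have dom : ∀ (p : Option ℕ) (d : ℕ), p.bind (th (rop x).f) = some d → ∃ e, x.f d = some e := by
      intro p d hp
      cases p with
      | none => cases hp
      | some c => exact (th_rop.1 hp).2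
    cases hp : p.bind (th (rop x).f) with
    | none =>
      cases hq : q.bind (th (rop x).f) with
      | none => rfl
      | some d =>
        obtain ⟨e', he'⟩ := dom q d hq
        rw [hp, hq] at h
        change none = x.f d at h
        rw [he'] at h
        cases h
    | some c =>
      obtain ⟨e', he'⟩ := dom p c hp
      cases hq : q.bind (th (rop x).f) with
      | none =>
        rw [hp, hq] at h
        change x.f c = none at h
        rw [he'] at h
        cases h
      | some d =>
        rw [hp, hq] at h
        change x.f c = x.f d at h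
        rw [he'] at h
        rw [x.inj _ _ _ he' h.symm]
  · intro h
    rw [e p, e q, h]

theorem rstar_rop (x : Elt.{u}) : RStar x (rop x) := by
  intro a b
  rw [lm_eq_iff, lm_eq_iff]
  exact forall_congr' fun c => bind_rop_iff x _ _

/-- the partial map with one value -/
def single (j c : ℕ) (h : c ≤ j) : Elt.{u} where
  f := fun i => if i = j then some c else none
  fin := ⟨j + 1, fun k hk => if_neg (by omega)⟩
  dec := by
    intro k d hd
    split_ifs at hd with h1
    cases hd
    omega
  dom := by
    intro k d hd
    split_ifs at hd with h1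
    exact if_neg (by omega)
  inj := by
    intro k k' d hd hd'
    split_ifs at hd hd' with h1 h2
    omega
  img := by
    intro k k' d hd hd'
    split_ifs at hd hd' with h1 h2
    cases hd
    have := Option.some.inj hd'
    omega

/-- the empty map -/
def empt : Elt.{u} where
  f := fun _ => none
  fin := ⟨0, fun _ _ => rfl⟩
  dec := fun _ _ h => by cases h
  dom := fun _ _ h => by cases h
  inj := fun _ _ _ h => by cases h
  img := fun _ _ _ h => by cases h

theorem single_f {j c : ℕ} {h : c ≤ j} {i d : ℕ} :
    (single.{u} j c h).f i = some d ↔ i = j ∧ c = d := by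
  unfold single
  simp only
  split_ifs with h1
  · constructor
    · intro h2; exact ⟨h1, Option.some.inj h2⟩
    · rintro ⟨_, rfl⟩; rfl
  · constructor
    · intro h2; cases h2
    · rintro ⟨h2, _⟩; exact absurd h2 h1

theorem th_single {j c : ℕ} {h : c ≤ j} {i d : ℕ} :
    th (single.{u} j c h).f i = some d ↔ (i = j ∨ i = j + 1) ∧ c = d := by
  rw [th_some]
  constructor
  · rintro (h1 | ⟨i', rfl, h1⟩)
    · obtain ⟨rfl, h2⟩ := single_f.1 h1
      exact ⟨Or.inl rfl, h2⟩
    · obtain ⟨rfl, h2⟩ := single_f.1 h1
      exact ⟨Or.inr rfl, h2⟩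
  · rintro ⟨rfl | rfl, h2⟩
    · exact Or.inl (single_f.2 ⟨rfl, h2⟩)
    · exact Or.inr ⟨j, rfl, single_f.2 ⟨rfl, h2⟩⟩

theorem th_empt (i : ℕ) : th empt.{u}.f i = none := by
  cases i <;> rfl

theorem opt_eq {p q : Option ℕ} (h : ∀ d, p = some d ↔ q = some d) : p = q :=
  Option.ext fun d => h d

theorem lstar_idem_sub {e e' : Elt.{u}} (he : e * e = e) (_he' : e' * e' = e')
    (h : LStar e e') {j : ℕ} (hj : e'.f j = some j) : e.f j = some j := by
  by_contra hcon
  have hn : ∀ c, e.f j ≠ some c := by
    intro c hc
    obtain rfl := of_idem he hc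
    exact hcon hc
  by_cases h1 : e.f (j + 1) = some (j + 1)
  · have h2 := h (some (single j j le_rfl)) (some (single (j + 1) j (by omega)))
    rw [rm_eq_iff, rm_eq_iff] at h2
    have h3 := h2.1 (by
      intro k c hk
      obtain rfl := of_idem he hk
      apply opt_eq
      intro d
      show th _ _ = _ ↔ th _ _ = _
      rw [th_single, th_single]
      have a1 : c ≠ j := by
        rintro rfl
        exact hn _ hk
      have a2 : c ≠ j + 2 := by
        rintro rfl
        rw [e.dom _ _ h1] at hk
        cases hk
      constructor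
      · rintro ⟨h4 | h4, h5⟩
        · exact absurd h4 a1
        · exact ⟨Or.inl h4, h5⟩
      · rintro ⟨h4 | h4, h5⟩
        · exact ⟨Or.inr h4, h5⟩
        · exact absurd h4 (by omega))
    have h4 := h3 j j hj
    have h5 : th (single.{u} j j le_rfl).f j = some j := th_single.2 ⟨Or.inl rfl, rfl⟩
    have h6 : th (single.{u} (j + 1) j (by omega)).f j = some j := by
      rw [← h5]; exact h4.symm
    obtain ⟨h7 | h7, _⟩ := th_single.1 h6 <;> omega
  · have hn1 : ∀ c, e.f (j + 1) ≠ some c := by
      intro c hc
      obtain rfl := of_idem he hc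
      exact h1 hc
    have h2 := h (some (single j j le_rfl)) (some empt)
    rw [rm_eq_iff, rm_eq_iff] at h2
    have h3 := h2.1 (by
      intro k c hk
      obtain rfl := of_idem he hk
      show th _ _ = th _ _
      rw [th_empt]
      cases h4 : th (single.{u} j j le_rfl).f c with
      | none => rfl
      | some d =>
        obtain ⟨h5 | h5, _⟩ := th_single.1 h4
        · rw [h5] at hk
          exact absurd hk (hn _)
        · rw [h5] at hk
          exact absurd hk (hn1 _))
    have h4 := h3 j j hj
    have h5 : th (single.{u} j j le_rfl).f j = some j := th_single.2 ⟨Or.inl rfl, rfl⟩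
    have h6 : th empt.{u}.f j = some j := by rw [← h5]; exact h4.symm
    rw [th_empt] at h6
    cases h6

theorem rstar_idem_sub {e e' : Elt.{u}} (he : e * e = e) (_he' : e' * e' = e')
    (h : RStar e e') {j : ℕ} (hj : e'.f j = some j) : e.f j = some j := by
  by_contra hcon
  have hn : ∀ c, e.f j ≠ some c := by
    intro c hc
    obtain rfl := of_idem he hc
    exact hcon hc
  have hnj : e.f j = none := by
    cases h1 : e.f j with
    | none => rfl
    | some c => exact absurd h1 (hn c)
  by_cases h1 : ∃ i, j = i + 1 ∧ e.f i = some i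
  · obtain ⟨i, rfl, hi⟩ := h1
    have h2 := h (some (single (i + 1) (i + 1) le_rfl)) (some (single (i + 1) i (by omega)))
    rw [lm_eq_iff, lm_eq_iff] at h2
    have h3 := h2.1 (by
      intro c
      show (th _ c).bind _ = (th _ c).bind _
      by_cases hc : c = i + 1 ∨ c = i + 1 + 1
      · have a1 : th (single.{u} (i + 1) (i + 1) le_rfl).f c = some (i + 1) :=
          th_single.2 ⟨hc, rfl⟩
        have a2 : th (single.{u} (i + 1) i (by omega)).f c = some i := th_single.2 ⟨hc, rfl⟩
        rw [a1, a2]
        show th e.f (i + 1) = th e.f i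
        rw [th_of' hi, th_of hi]
      · have a1 : th (single.{u} (i + 1) (i + 1) le_rfl).f c = none := by
          cases h4 : th (single.{u} (i + 1) (i + 1) le_rfl).f c with
          | none => rfl
          | some d => exact absurd (th_single.1 h4).1 hc
        have a2 : th (single.{u} (i + 1) i (by omega)).f c = none := by
          cases h4 : th (single.{u} (i + 1) i (by omega)).f c with
          | none => rfl
          | some d => exact absurd (th_single.1 h4).1 hc
        rw [a1, a2]) (i + 1)
    have a1 : thO (some (single.{u} (i + 1) (i + 1) le_rfl)) (i + 1) = some (i + 1) := by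
      show th (single.{u} (i + 1) (i + 1) le_rfl).f (i + 1) = some (i + 1)
      exact th_single.2 ⟨Or.inl rfl, rfl⟩
    have a2 : thO (some (single.{u} (i + 1) i (by omega))) (i + 1) = some i := by
      show th (single.{u} (i + 1) i (by omega)).f (i + 1) = some i
      exact th_single.2 ⟨Or.inl rfl, rfl⟩
    rw [a1, a2] at h3
    change th e'.f (i + 1) = th e'.f i at h3
    rw [th_of hj] at h3
    rcases th_some.1 h3.symm with h4 | ⟨i', rfl, h4⟩
    · have := e'.dec _ _ h4
      omega
    · have := e'.dec _ _ h4
      omega
  · have h2 := h (some (single j j le_rfl)) (some empt)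
    rw [lm_eq_iff, lm_eq_iff] at h2
    have hth : th e.f j = none := by
      apply th_none hnj
      intro i hi
      cases h4 : e.f i with
      | none => rfl
      | some d =>
        obtain rfl := of_idem he h4
        exact absurd ⟨d, hi, h4⟩ h1
    have h3 := h2.1 (by
      intro c
      show (th _ c).bind _ = (th _ c).bind _
      rw [th_empt]
      cases h4 : th (single.{u} j j le_rfl).f c with
      | none => rfl
      | some d =>
        obtain ⟨_, rfl⟩ := th_single.1 h4
        exact hth) j
    have a1 : thO (some (single.{u} j j le_rfl)) j = some j := th_single.2 ⟨Or.inl rfl, rfl⟩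
    have a2 : thO (some empt.{u}) j = none := th_empt j
    rw [a1, a2] at h3
    change th e'.f j = none at h3
    rw [th_of hj] at h3
    cases h3

theorem idem_ext {e e' : Elt.{u}} (he : e * e = e) (he' : e' * e' = e')
    (h : ∀ j, e.f j = some j ↔ e'.f j = some j) : e = e' := by
  apply Elt.ext
  funext k
  apply opt_eq
  intro d
  constructor
  · intro h1
    obtain rfl := of_idem he h1
    exact (h d).1 h1
  · intro h1
    obtain rfl := of_idem he' h1
    exact (h d).2 h1

theorem amiable : Amiable Elt.{u} := by
  refine ⟨assoc, ?_, ?_⟩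
  · intro x
    have hl : lop x * lop x = lop x := idem_of fun k c h => (lop_f.1 h).1
    refine ⟨lop x, ⟨hl, lstar_lop x⟩, ?_⟩
    rintro e ⟨he, hxe⟩
    have h1 : LStar e (lop x) := fun a b => (hxe a b).symm.trans (lstar_lop x a b)
    have h2 : LStar (lop x) e := fun a b => (h1 a b).symm
    exact idem_ext he hl fun j => ⟨fun h => lstar_idem_sub hl he h2 h,
      fun h => lstar_idem_sub he hl h1 h⟩
  · intro x
    have hl : rop x * rop x = rop x := idem_of fun k c h => (rop_f.1 h).1
    refine ⟨rop x, ⟨hl, rstar_rop x⟩, ?_⟩
    rintro e ⟨he, hxe⟩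
    have h1 : RStar e (rop x) := fun a b => (hxe a b).symm.trans (rstar_rop x a b)
    have h2 : RStar (rop x) e := fun a b => (h1 a b).symm
    exact idem_ext he hl fun j => ⟨fun h => rstar_idem_sub hl he h2 h,
      fun h => rstar_idem_sub he hl h1 h⟩

end Elt

end Pool.Agent.X238.Ami
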